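import Pool.Agent.H73.WH.Gga

/-!
# [H73 WH GGB] size of `GG`, functional equations for `ζ'`, `ζ'/ζ`, `ζ'^2/ζ`, bounds for `ζ`, `ζ'` in half planes

`x ↦ log |GG(x+it)|^2 - (2x-1) log(|t|/2π)` vanishes at `x = 1/2` and has derivative
`2 Re λ - 2 log(|t|/2π) = O(1/|t|)`.
-/

set_option autoImplicit false

namespace Pool.Agent.H73.WH

open Complex MeasureTheory Finset Pool.Agent.H48.WN

/-- `|GG s| = (|t|/2π)^(σ-1/2)` up to a factor `exp(O(1/|t|))` -/
theorem gg_size (A : ℝ) : ∃ C T0 : ℝ, 0 < C ∧ 10 ≤ T0 ∧ ∀ s : ℂ, |s.re| ≤ A → T0 ≤ |s.im| →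
    |Real.log ‖GG s‖ - (s.re - 1 / 2) * Real.log (|s.im| / (2 * Real.pi))| ≤ C / |s.im| := by
  obtain ⟨C0, T1, hC0, hT1, H⟩ := lam_bd (|A| + 1)
  refine ⟨C0 * (|A| + 1), T1, by positivity, hT1, ?_⟩
  intro s hs1 hs2
  have hA : 0 ≤ A := (abs_nonneg _).trans hs1
  rw [abs_of_nonneg hA] at H ⊢
  obtain ⟨t, ht⟩ : ∃ t : ℝ, t = s.im := ⟨_, rfl⟩
  rw [← ht] at hs2 ⊢
  have ht0 : t ≠ 0 := by
    intro h0
    rw [h0, abs_zero] at hs2
    linarith
  have htp : 0 < |t| := abs_pos.2 ht0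
  obtain ⟨l, hl⟩ : ∃ l : ℝ, l = Real.log (|t| / (2 * Real.pi)) := ⟨_, rfl⟩
  rw [← hl]
  let γ : ℝ → ℂ := fun x => (x : ℂ) + (t : ℂ) * I
  have hγre : ∀ x, (γ x).re = x := fun x => by simp [γ]
  have hγim : ∀ x, (γ x).im = t := fun x => by simp [γ]
  have hγd : ∀ x, HasDerivAt γ 1 x := fun x => by
    have := (Complex.ofRealCLM.hasDerivAt (x := x)).add_const ((t : ℂ) * I)
    rw [Complex.ofRealCLM_apply, Complex.ofReal_one] at this
    exact this
  have hγi : ∀ x, (γ x).im ≠ 0 := fun x => by rw [hγim]; exact ht0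
  have hF : ∀ x, HasDerivAt (fun x => GG (γ x)) (GG (γ x) * logDeriv GG (γ x)) x := fun x => by
    have := (lam_hasDeriv (hγi x)).comp x (hγd x)
    rw [mul_one] at this
    exact this
  have hN : ∀ x, HasDerivAt (fun x => ‖GG (γ x)‖ ^ 2)
      (2 * (‖GG (γ x)‖ ^ 2 * (logDeriv GG (γ x)).re)) x := fun x => by
    have h := (hF x).norm_sq
    have e : inner ℝ (GG (γ x)) (GG (γ x) * logDeriv GG (γ x)) =
        ‖GG (γ x)‖ ^ 2 * (logDeriv GG (γ x)).re := by
      rw [Complex.inner, mul_right_comm, Complex.mul_conj, Complex.re_ofReal_mul,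
        Complex.normSq_eq_norm_sq]
    rw [e] at h
    exact h
  have hpos : ∀ x, 0 < ‖GG (γ x)‖ := fun x => norm_pos_iff.2 (gg_ne (hγi x))
  let f : ℝ → ℝ := fun x => Real.log (‖GG (γ x)‖ ^ 2) / 2 - (x - 1 / 2) * l
  have hf : ∀ x, HasDerivAt f ((logDeriv GG (γ x)).re - l) x := fun x => by
    have h1 := ((hN x).log (by have := hpos x; positivity)).div_const 2
    have h2 : HasDerivAt (fun x : ℝ => (x - 1 / 2) * l) l x := by
      have h21 := ((hasDerivAt_id x).sub_const (1 / 2)).mul_const l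
      rw [one_mul] at h21
      exact h21
    have h3 := h1.sub h2
    have e : (2 * (‖GG (γ x)‖ ^ 2 * (logDeriv GG (γ x)).re)) / ‖GG (γ x)‖ ^ 2 / 2 - l =
        (logDeriv GG (γ x)).re - l := by
      have := (hpos x).ne'
      field_simp
    rw [e] at h3
    exact h3
  have hf0 : f (1 / 2) = 0 := by
    show Real.log (‖GG (γ (1 / 2))‖ ^ 2) / 2 - (1 / 2 - 1 / 2) * l = 0
    rw [gg_half (hγre _) (hγi _)]
    simp
  have hbd : ∀ x ∈ Set.Icc (-(A + 1)) (A + 1), ‖(logDeriv GG (γ x)).re - l‖ ≤ C0 / |t| := by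
    intro x hx
    have h1 := H (γ x) (by rw [hγre]; exact abs_le.2 hx) (by rw [hγim]; exact hs2)
    rw [hγim, ← hl] at h1
    have h2 := (Complex.abs_re_le_norm (logDeriv GG (γ x) - (l : ℂ))).trans h1
    rw [Complex.sub_re, Complex.ofReal_re] at h2
    exact h2
  have hmv := Convex.norm_image_sub_le_of_norm_hasDerivWithin_le (f := f)
    (f' := fun x => (logDeriv GG (γ x)).re - l) (s := Set.Icc (-(A + 1)) (A + 1)) (C := C0 / |t|)
    (x := 1 / 2) (y := s.re) (fun x _ => (hf x).hasDerivWithinAt) hbd (convex_Icc _ _)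
    ⟨by linarith, by linarith⟩ ⟨by linarith [(abs_le.1 hs1).1], by linarith [(abs_le.1 hs1).2]⟩
  rw [hf0, sub_zero] at hmv
  have hγs : γ s.re = s := by
    apply Complex.ext
    · rw [hγre]
    · rw [hγim, ht]
  have e : f s.re = Real.log ‖GG s‖ - (s.re - 1 / 2) * l := by
    show Real.log (‖GG (γ s.re)‖ ^ 2) / 2 - (s.re - 1 / 2) * l = _
    rw [hγs, Real.log_pow]
    push_cast
    ring
  rw [e, Real.norm_eq_abs, Real.norm_eq_abs] at hmv
  refine hmv.trans ?_
  have h3 : |s.re - 1 / 2| ≤ A + 1 := by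
    have := abs_sub s.re (1 / 2 : ℝ)
    rw [abs_of_pos (by norm_num : (0 : ℝ) < 1 / 2)] at this
    linarith
  calc C0 / |t| * |s.re - 1 / 2| ≤ C0 / |t| * (A + 1) := mul_le_mul_of_nonneg_left h3 (by positivity)
    _ = C0 * (A + 1) / |t| := by ring

/-- upper and lower bound for `GG` in a vertical strip -/
theorem gg_bd (A : ℝ) : ∃ C T0 : ℝ, 1 ≤ C ∧ 10 ≤ T0 ∧ ∀ s : ℂ, |s.re| ≤ A → T0 ≤ |s.im| →
    ‖GG s‖ ≤ C * |s.im| ^ (s.re - 1 / 2) ∧ |s.im| ^ (s.re - 1 / 2) ≤ C * ‖GG s‖ := by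
  obtain ⟨C0, T0, hC0, hT0, H⟩ := gg_size A
  obtain ⟨D, hD⟩ : ∃ D : ℝ, D = C0 + (|A| + 1) * Real.log (2 * Real.pi) := ⟨_, rfl⟩
  have hl2 : 0 ≤ Real.log (2 * Real.pi) := Real.log_nonneg (by linarith [Real.pi_gt_three])
  have hD0 : 0 ≤ D := by rw [hD]; positivity
  refine ⟨Real.exp D, T0, Real.one_le_exp hD0, hT0, ?_⟩
  intro s hs1 hs2
  have hA : 0 ≤ A := (abs_nonneg _).trans hs1
  rw [abs_of_nonneg hA] at hD
  have htp : 0 < |s.im| := by linarith
  have ht0 : s.im ≠ 0 := abs_pos.1 htp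
  have h1 := H s hs1 hs2
  have h2 : C0 / |s.im| ≤ C0 := by
    rw [div_le_iff₀ htp]
    nlinarith
  have hlog : Real.log (|s.im| / (2 * Real.pi)) = Real.log |s.im| - Real.log (2 * Real.pi) :=
    Real.log_div htp.ne' (by positivity)
  rw [hlog] at h1
  obtain ⟨g, hg⟩ : ∃ g : ℝ, g = Real.log ‖GG s‖ := ⟨_, rfl⟩
  have hpos : 0 < ‖GG s‖ := norm_pos_iff.2 (gg_ne ht0)
  have hge : ‖GG s‖ = Real.exp g := by rw [hg, Real.exp_log hpos]
  have hte : |s.im| ^ (s.re - 1 / 2) = Real.exp (Real.log |s.im| * (s.re - 1 / 2)) := by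
    rw [Real.rpow_def_of_pos htp]
  rw [← hg] at h1
  have h3 : |(s.re - 1 / 2) * Real.log (2 * Real.pi)| ≤ (A + 1) * Real.log (2 * Real.pi) := by
    rw [abs_mul, abs_of_nonneg hl2]
    apply mul_le_mul_of_nonneg_right _ hl2
    have := abs_sub s.re (1 / 2 : ℝ)
    rw [abs_of_pos (by norm_num : (0 : ℝ) < 1 / 2)] at this
    linarith
  have h4 : |g - (s.re - 1 / 2) * Real.log (|s.im|)| ≤ D := by
    have e : g - (s.re - 1 / 2) * Real.log (|s.im|) =
        (g - (s.re - 1 / 2) * (Real.log |s.im| - Real.log (2 * Real.pi))) -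
          (s.re - 1 / 2) * Real.log (2 * Real.pi) := by ring
    rw [e]
    refine (abs_sub _ _).trans ?_
    rw [hD]
    linarith
  obtain ⟨h5, h6⟩ := abs_le.1 h4
  rw [hge, hte, ← Real.exp_add, ← Real.exp_add]
  constructor
  · apply Real.exp_le_exp.2
    linarith
  · apply Real.exp_le_exp.2
    linarith

theorem lam_diff {s : ℂ} (h : s.im ≠ 0) : DifferentiableAt ℂ (logDeriv GG) s := by
  have ho : IsOpen {z : ℂ | z.im ≠ 0} := isOpen_ne_fun Complex.continuous_im continuous_const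
  have h1 : DifferentiableOn ℂ GG {z : ℂ | z.im ≠ 0} := fun z hz => (gg_diff hz).differentiableWithinAt
  have h2 : DifferentiableAt ℂ (deriv GG) s := (h1.deriv ho).differentiableAt (ho.mem_nhds h)
  have h3 := h2.div (gg_diff h) (gg_ne h)
  exact h3

/-- functional equation of the derivative -/
theorem dz_fe {s : ℂ} (h : s.im ≠ 0) : deriv riemannZeta (1 - s) =
    -(GG s * (logDeriv GG s * riemannZeta s + deriv riemannZeta s)) := by
  have hs1 : s ≠ 1 := by
    rintro rfl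
    simp at h
  have hs1' : 1 - s ≠ 1 := by
    intro h0
    have h' := im_one_subb h
    rw [h0] at h'
    simp at h'
  have ho : IsOpen {z : ℂ | z.im ≠ 0} := isOpen_ne_fun Complex.continuous_im continuous_const
  have h1 : (fun z : ℂ => riemannZeta (1 - z)) =ᶠ[nhds s] fun z => GG z * riemannZeta z := by
    filter_upwards [ho.mem_nhds h] with z hz
    exact gg_fe hz
  have h2 : HasDerivAt (fun z : ℂ => riemannZeta (1 - z)) (deriv riemannZeta (1 - s) * (-1)) s := by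
    have h3 : HasDerivAt (fun z : ℂ => 1 - z) (-1) s := by
      simpa using (hasDerivAt_id s).const_sub 1
    exact (differentiableAt_riemannZeta hs1').hasDerivAt.comp s h3
  have h4 : HasDerivAt (fun z => GG z * riemannZeta z)
      (GG s * logDeriv GG s * riemannZeta s + GG s * deriv riemannZeta s) s :=
    (lam_hasDeriv h).mul (differentiableAt_riemannZeta hs1).hasDerivAt
  have h5 := h2.unique (h4.congr_of_eventuallyEq h1)
  linear_combination -h5

/-- functional equation of the logarithmic derivative -/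
theorem ld_fe {s : ℂ} (h : s.im ≠ 0) (hz : riemannZeta s ≠ 0) :
    deriv riemannZeta (1 - s) / riemannZeta (1 - s) =
      -logDeriv GG s - deriv riemannZeta s / riemannZeta s := by
  rw [dz_fe h, gg_fe h]
  have := gg_ne h
  field_simp
  ring

/-- functional equation of `ζ'^2/ζ` -/
theorem hz_fe {s : ℂ} (h : s.im ≠ 0) (hz : riemannZeta s ≠ 0) :
    deriv riemannZeta (1 - s) ^ 2 / riemannZeta (1 - s) =
      GG s * (logDeriv GG s ^ 2 * riemannZeta s + 2 * logDeriv GG s * deriv riemannZeta s +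
        deriv riemannZeta s ^ 2 / riemannZeta s) := by
  rw [dz_fe h, gg_fe h]
  have := gg_ne h
  field_simp
  ring

end Pool.Agent.H73.WH
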