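import Pool.Agent.H48.WN.Gfe
import Pool.Agent.H48.WN.Zad
import Pool.Agent.H14.Sel.St3

/-!
# [H73 WH GGA] the factor of the functional equation and its logarithmic derivative in wide strips

`GG s = Gammaℝ s / Gammaℝ (1 - s)` (from `H48/WN/Gfe`), so `ζ(1-s) = GG s ζ(s)`. `logDeriv GG s = -log π +
(ψ(s/2) + ψ((1-s)/2))/2`; by Stirling (`H14/Sel/St3`) and Cauchy's estimate `ψ(z) = log z + O(1/|z|)`, hence
`logDeriv GG s = log(|t|/2π) + O(1/|t|)` in `|Re s| ≤ A`. Integrating from the line `Re s = 1/2`, where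
`|GG| = 1`: `|GG s| = (|t|/2π)^(σ-1/2) (1 + O(1/|t|))`.
-/

set_option autoImplicit false

namespace Pool.Agent.H73.WH

open Complex MeasureTheory Finset Pool.Agent.H48.WN

/-- the logarithmic derivative of `Gammaℝ` -/
private noncomputable def dR (s : ℂ) : ℂ := -((Real.log Real.pi : ℝ) : ℂ) / 2 + digamma (s / 2) / 2

private theorem gr_ne {s : ℂ} (h : s.im ≠ 0) : Gammaℝ s ≠ 0 := by
  intro h0
  obtain ⟨n, hn⟩ := Gammaℝ_eq_zero_iff.1 h0
  apply h
  rw [hn]
  simp

private theorem half_ne {s : ℂ} (h : s.im ≠ 0) (m : ℕ) : s / 2 ≠ -(m : ℂ) := by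
  intro h0
  apply h
  have : s = -(2 * (m : ℂ)) := by
    rw [show s = 2 * (s / 2) by ring, h0]
    ring
  rw [this]
  simp

theorem im_one_subb {s : ℂ} (h : s.im ≠ 0) : (1 - s).im ≠ 0 := by
  simpa using h

private theorem gr_deriv {s : ℂ} (h : s.im ≠ 0) : HasDerivAt Gammaℝ (Gammaℝ s * dR s) s := by
  have hpi : (Real.pi : ℂ) ≠ 0 := by exact_mod_cast Real.pi_ne_zero
  have h1 : HasDerivAt (fun z : ℂ => (Real.pi : ℂ) ^ (-z / 2))
      ((Real.pi : ℂ) ^ (-s / 2) * Complex.log Real.pi * (-1 / 2)) s :=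
    ((hasDerivAt_id s).neg.div_const 2).const_cpow (Or.inl hpi)
  have hG : HasDerivAt Complex.Gamma (deriv Complex.Gamma (s / 2)) (s / 2) :=
    (Complex.differentiableAt_Gamma (s / 2) (half_ne h)).hasDerivAt
  have h2 : HasDerivAt (fun z : ℂ => Complex.Gamma (z / 2)) (deriv Complex.Gamma (s / 2) * (1 / 2)) s :=
    hG.comp s ((hasDerivAt_id s).div_const 2)
  have hne : Complex.Gamma (s / 2) ≠ 0 := Complex.Gamma_ne_zero (half_ne h)
  have h3 := h1.mul h2
  have e : Gammaℝ s * dR s = (Real.pi : ℂ) ^ (-s / 2) * Complex.log Real.pi * (-1 / 2) *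
      Complex.Gamma (s / 2) + (Real.pi : ℂ) ^ (-s / 2) * (deriv Complex.Gamma (s / 2) * (1 / 2)) := by
    unfold dR
    rw [Gammaℝ_def, digamma, logDeriv_apply, Complex.ofReal_log Real.pi_pos.le]
    field_simp
  rw [e]
  exact h3

private theorem gg_deriv {s : ℂ} (h : s.im ≠ 0) : HasDerivAt GG (GG s * (dR s + dR (1 - s))) s := by
  have h' : (1 - s).im ≠ 0 := im_one_subb h
  have h1 := gr_deriv h
  have h2 : HasDerivAt (fun z : ℂ => Gammaℝ (1 - z)) (Gammaℝ (1 - s) * dR (1 - s) * (-1)) s := by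
    have h3 : HasDerivAt (fun z : ℂ => 1 - z) (-1) s := by
      simpa using (hasDerivAt_id s).const_sub 1
    exact (gr_deriv h').comp s h3
  have hne : Gammaℝ (1 - s) ≠ 0 := gr_ne h'
  have h4 := h1.div h2 hne
  have e : GG s * (dR s + dR (1 - s)) = (Gammaℝ s * dR s * Gammaℝ (1 - s) -
      Gammaℝ s * (Gammaℝ (1 - s) * dR (1 - s) * (-1))) / Gammaℝ (1 - s) ^ 2 := by
    unfold GG
    field_simp
    ring
  rw [e]
  exact h4

theorem gg_ne {s : ℂ} (h : s.im ≠ 0) : GG s ≠ 0 :=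
  div_ne_zero (gr_ne h) (gr_ne (im_one_subb h))

theorem gg_diff {s : ℂ} (h : s.im ≠ 0) : DifferentiableAt ℂ GG s := (gg_deriv h).differentiableAt

theorem gg_fe {s : ℂ} (h : s.im ≠ 0) : riemannZeta (1 - s) = GG s * riemannZeta s := by
  have h' := im_one_subb h
  have hs0 : s ≠ 0 := by
    rintro rfl
    simp at h
  have hs1 : (1 - s) ≠ 0 := by
    intro h0
    rw [h0] at h'
    simp at h'
  rw [riemannZeta_def_of_ne_zero hs0, riemannZeta_def_of_ne_zero hs1, completedRiemannZeta_one_sub]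
  unfold GG
  have := gr_ne h
  have := gr_ne h'
  field_simp

theorem gg_inv {s : ℂ} (h : s.im ≠ 0) : GG s * GG (1 - s) = 1 := by
  have h1 := gr_ne h
  have h2 := gr_ne (im_one_subb h)
  unfold GG
  rw [show 1 - (1 - s) = s by ring]
  field_simp

private theorem gr_conj (s : ℂ) : Gammaℝ ((starRingEnd ℂ) s) = (starRingEnd ℂ) (Gammaℝ s) := by
  rw [Gammaℝ_def, Gammaℝ_def, map_mul]
  have h2 : (starRingEnd ℂ) s / 2 = (starRingEnd ℂ) (s / 2) := by
    have h2c : (starRingEnd ℂ) 2 = 2 := map_ofNat _ 2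
    rw [map_div₀, h2c]
  have h3 : -(starRingEnd ℂ) s / 2 = (starRingEnd ℂ) (-s / 2) := by
    have h2c : (starRingEnd ℂ) 2 = 2 := map_ofNat _ 2
    rw [map_div₀, h2c, map_neg]
  rw [h2, Complex.Gamma_conj, h3]
  congr 1
  rw [Complex.cpow_conj]
  · rw [Complex.conj_ofReal]
  · rw [Complex.arg_ofReal_of_nonneg Real.pi_pos.le]
    exact Real.pi_pos.ne

theorem gg_conj (s : ℂ) : GG ((starRingEnd ℂ) s) = (starRingEnd ℂ) (GG s) := by
  unfold GG
  rw [map_div₀, ← gr_conj, ← gr_conj, map_sub, map_one]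

theorem gg_half {s : ℂ} (h : s.re = 1 / 2) (hi : s.im ≠ 0) : ‖GG s‖ = 1 := by
  have e : (1 - s) = (starRingEnd ℂ) s := by
    apply Complex.ext
    · simp [h]; norm_num
    · simp
  have h1 := congrArg norm (gg_inv hi)
  rw [norm_mul, norm_one, e, gg_conj, RCLike.norm_conj] at h1
  nlinarith [norm_nonneg (GG s)]

/-! ## the digamma function -/

private theorem stir_deriv {z : ℂ} (hz : z.im ≠ 0) :
    HasDerivAt Pool.Agent.H14.Sel.stir (Pool.Agent.H14.Sel.stir z *
      (Complex.log z - 1 / (2 * z) - 1 / (12 * z ^ 2))) z := by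
  have hz0 : z ≠ 0 := by
    rintro rfl
    simp at hz
  have hsl : z ∈ slitPlane := Complex.mem_slitPlane_iff.2 (Or.inr hz)
  have h1 : HasDerivAt (fun w : ℂ => (w - 1 / 2) * Complex.log w) (1 * Complex.log z + (z - 1 / 2) * z⁻¹) z :=
    ((hasDerivAt_id z).sub_const (1 / 2)).mul (Complex.hasDerivAt_log hsl)
  have h2 : HasDerivAt (fun w : ℂ => 1 / (12 * w)) (-(12 : ℂ) / (12 * z) ^ 2) z := by
    have h3 : HasDerivAt (fun w : ℂ => 12 * w) 12 z := by
      simpa using (hasDerivAt_id z).const_mul (12 : ℂ)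
    have h4 := h3.fun_inv (mul_ne_zero (by norm_num) hz0)
    have e4 : (fun w : ℂ => 1 / (12 * w)) = fun w : ℂ => (12 * w)⁻¹ := by
      funext w
      rw [one_div]
    rw [e4]
    exact h4
  have h5 := (((h1.sub (hasDerivAt_id z)).add_const ((Real.log (2 * Real.pi) : ℂ) / 2)).add h2).cexp
  have e : Pool.Agent.H14.Sel.stir z * (Complex.log z - 1 / (2 * z) - 1 / (12 * z ^ 2)) =
      Complex.exp ((z - 1 / 2) * Complex.log z - z + (Real.log (2 * Real.pi) : ℂ) / 2 + 1 / (12 * z)) *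
        (1 * Complex.log z + (z - 1 / 2) * z⁻¹ - 1 + -(12 : ℂ) / (12 * z) ^ 2) := by
    unfold Pool.Agent.H14.Sel.stir
    congr 1
    field_simp
    ring
  rw [e]
  exact h5

/-- `ψ(z) = log z + O(1/|Im z|)` in vertical strips -/
theorem dig_log (A : ℝ) : ∃ C T0 : ℝ, 0 < C ∧ 10 ≤ T0 ∧ ∀ z : ℂ, |z.re| ≤ A → T0 ≤ |z.im| →
    ‖digamma z - Complex.log z‖ ≤ C / |z.im| := by
  obtain ⟨C0, T1, hT1, H⟩ := Pool.Agent.H14.Sel.stirling (|A| + 1)
  obtain ⟨C, hC⟩ : ∃ C : ℝ, C = |C0| + 1 := ⟨_, rfl⟩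
  have hCpos : 0 < C := by rw [hC]; positivity
  obtain ⟨T0, hT0⟩ : ∃ T0 : ℝ, T0 = 10 + 2 * T1 + 8 * C := ⟨_, rfl⟩
  refine ⟨8 * C + 1, T0, by linarith, by rw [hT0]; linarith, ?_⟩
  intro z hz1 hz2
  obtain ⟨y, hy⟩ : ∃ y : ℝ, y = |z.im| := ⟨_, rfl⟩
  rw [← hy] at hz2 ⊢
  have hy10 : 10 ≤ y := by rw [hT0] at hz2; linarith
  have hyT : 2 * T1 ≤ y := by rw [hT0] at hz2; linarith
  have hyC : 8 * C ≤ y := by rw [hT0] at hz2; linarith
  have hA : 0 ≤ A := (abs_nonneg _).trans hz1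
  -- the ball
  have hball : ∀ w ∈ Metric.closedBall z 1, |w.re| ≤ |A| + 1 ∧ y / 2 ≤ |w.im| := by
    intro w hw
    have hw' : ‖w - z‖ ≤ 1 := by
      rw [← dist_eq_norm]
      exact hw
    have h1 : |w.re - z.re| ≤ 1 := by
      rw [← Complex.sub_re]
      exact (Complex.abs_re_le_norm _).trans hw'
    have h2 : |w.im - z.im| ≤ 1 := by
      rw [← Complex.sub_im]
      exact (Complex.abs_im_le_norm _).trans hw'
    constructor
    · have h3 : |w.re| ≤ |w.re - z.re| + |z.re| := by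
        have := abs_add_le (w.re - z.re) z.re
        rwa [sub_add_cancel] at this
      rw [abs_of_nonneg hA]
      linarith
    · have h3 : |z.im| ≤ |w.im - z.im| + |w.im| := by
        have := abs_sub_abs_le_abs_sub z.im w.im
        rw [abs_sub_comm] at this
        linarith
      rw [← hy] at h3
      linarith
  obtain ⟨E, hE⟩ : ∃ E : ℂ → ℂ, E = fun w => Complex.Gamma w / Pool.Agent.H14.Sel.stir w := ⟨_, rfl⟩
  have hEd : ∀ w ∈ Metric.closedBall z 1, HasDerivAt E (E w *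
      (digamma w - (Complex.log w - 1 / (2 * w) - 1 / (12 * w ^ 2)))) w := by
    intro w hw
    obtain ⟨h1, h2⟩ := hball w hw
    have hwi : w.im ≠ 0 := by
      intro h0
      rw [h0, abs_zero] at h2
      linarith
    have hm : ∀ m : ℕ, w ≠ -(m : ℂ) := by
      intro m h0
      apply hwi
      rw [h0]
      simp
    have h3 := (Complex.differentiableAt_Gamma w hm).hasDerivAt
    have hGne : Complex.Gamma w ≠ 0 := Complex.Gamma_ne_zero hm
    have h4 := h3.div (stir_deriv hwi) (Pool.Agent.H14.Sel.stir_ne_zero w)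
    have hsn := Pool.Agent.H14.Sel.stir_ne_zero w
    have e : E w * (digamma w - (Complex.log w - 1 / (2 * w) - 1 / (12 * w ^ 2))) =
        (deriv Complex.Gamma w * Pool.Agent.H14.Sel.stir w - Complex.Gamma w *
          (Pool.Agent.H14.Sel.stir w * (Complex.log w - 1 / (2 * w) - 1 / (12 * w ^ 2)))) /
          Pool.Agent.H14.Sel.stir w ^ 2 := by
      rw [hE, digamma, logDeriv_apply]
      show Complex.Gamma w / Pool.Agent.H14.Sel.stir w * _ = _
      field_simp
    rw [e, hE]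
    exact h4
  have hEb : ∀ w ∈ Metric.closedBall z 1, ‖E w - 1‖ ≤ 4 * C / y ^ 2 := by
    intro w hw
    obtain ⟨h1, h2⟩ := hball w hw
    have h3 := H w h1 (by linarith)
    rw [hE]
    refine h3.trans ?_
    have h4 : y / 2 ≤ ‖w‖ := h2.trans (Complex.abs_im_le_norm w)
    have h5 : (y / 2) ^ 2 ≤ ‖w‖ ^ 2 := pow_le_pow_left₀ (by linarith) h4 2
    have h6 : 0 < (y / 2) ^ 2 := by positivity
    calc C0 / ‖w‖ ^ 2 ≤ C / ‖w‖ ^ 2 := by
          apply div_le_div_of_nonneg_right _ (by positivity)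
          rw [hC]
          linarith [le_abs_self C0]
      _ ≤ C / (y / 2) ^ 2 := div_le_div_of_nonneg_left hCpos.le h6 h5
      _ = 4 * C / y ^ 2 := by
          field_simp
          ring
  have hz : z ∈ Metric.closedBall z 1 := Metric.mem_closedBall_self zero_le_one
  -- derivative of E
  have hder : ‖deriv E z‖ ≤ 4 * C / y ^ 2 := by
    have hdc : DiffContOnCl ℂ (fun w => E w - 1) (Metric.ball z 1) := by
      apply DifferentiableOn.diffContOnCl
      rw [closure_ball z one_ne_zero]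
      intro w hw
      exact ((hEd w hw).differentiableAt.sub_const 1).differentiableWithinAt
    have h1 := Complex.norm_deriv_le_of_forall_mem_sphere_norm_le (C := 4 * C / y ^ 2) one_pos hdc
      (fun w hw => hEb w (Metric.sphere_subset_closedBall hw))
    rw [div_one] at h1
    have h2 : deriv (fun w => E w - 1) z = deriv E z := deriv_sub_const 1
    rwa [h2] at h1
  have hEz : 1 / 2 ≤ ‖E z‖ := by
    have h1 := hEb z hz
    have h2 : 4 * C / y ^ 2 ≤ 1 / 2 := by
      rw [div_le_iff₀ (by positivity)]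
      nlinarith
    have h3 : ‖(1 : ℂ)‖ ≤ ‖E z‖ + ‖E z - 1‖ := by
      have := norm_sub_le (E z) (E z - 1)
      rwa [sub_sub_cancel] at this
    rw [norm_one] at h3
    linarith
  have hmain : ‖digamma z - (Complex.log z - 1 / (2 * z) - 1 / (12 * z ^ 2))‖ ≤ 8 * C / y ^ 2 := by
    rw [(hEd z hz).deriv, norm_mul] at hder
    have h1 := norm_nonneg (digamma z - (Complex.log z - 1 / (2 * z) - 1 / (12 * z ^ 2)))
    have h2 : 8 * C / y ^ 2 = 2 * (4 * C / y ^ 2) := by ring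
    rw [h2]
    nlinarith
  have hzn : y ≤ ‖z‖ := by rw [hy]; exact Complex.abs_im_le_norm z
  have hz0 : 0 < ‖z‖ := by linarith
  have n1 : ‖1 / (2 * z)‖ ≤ 1 / (2 * y) := by
    rw [norm_div, norm_mul, norm_one]
    simp only [Complex.norm_ofNat]
    apply one_div_le_one_div_of_le (by linarith)
    linarith
  have n2 : ‖1 / (12 * z ^ 2)‖ ≤ 1 / (12 * y ^ 2) := by
    rw [norm_div, norm_mul, norm_one, norm_pow]
    simp only [Complex.norm_ofNat]
    apply one_div_le_one_div_of_le (by positivity)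
    have := pow_le_pow_left₀ (by linarith : (0 : ℝ) ≤ y) hzn 2
    linarith
  have e : digamma z - Complex.log z = (digamma z - (Complex.log z - 1 / (2 * z) - 1 / (12 * z ^ 2))) -
      (1 / (2 * z) + 1 / (12 * z ^ 2)) := by ring
  rw [e]
  refine (norm_sub_le _ _).trans ?_
  have h3 := norm_add_le (1 / (2 * z)) (1 / (12 * z ^ 2))
  have h4 : 8 * C / y ^ 2 ≤ 8 * C / y := by
    apply div_le_div_of_nonneg_left (by positivity) (by linarith)
    nlinarith
  have h5 : 1 / (2 * y) + 1 / (12 * y ^ 2) ≤ 1 / y := by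
    have h6 : 1 / (12 * y ^ 2) ≤ 1 / (2 * y) := by
      apply one_div_le_one_div_of_le (by linarith)
      nlinarith
    have h7 : 1 / y = 1 / (2 * y) + 1 / (2 * y) := by
      field_simp
      norm_num
    rw [h7]
    linarith
  have h8 : (8 * C + 1) / y = 8 * C / y + 1 / y := by ring
  rw [h8]
  linarith

/-! ## logarithms near the imaginary axis -/

private theorem log_up {z : ℂ} (h : 0 < z.im) (h2 : 2 * |z.re| ≤ z.im) :
    ‖Complex.log z - (((Real.log z.im : ℝ) : ℂ) + ((Real.pi / 2 : ℝ) : ℂ) * I)‖ ≤ 2 * |z.re| / z.im := by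
  obtain ⟨x, hx⟩ : ∃ x : ℝ, x = z.re := ⟨_, rfl⟩
  obtain ⟨y, hy⟩ : ∃ y : ℝ, y = z.im := ⟨_, rfl⟩
  rw [← hy] at h h2 ⊢
  rw [← hx] at h2 ⊢
  have hyc : (y : ℂ) ≠ 0 := by exact_mod_cast h.ne'
  obtain ⟨w, hw⟩ : ∃ w : ℂ, w = -((x / y : ℝ) : ℂ) * I := ⟨_, rfl⟩
  have hwn : ‖w‖ = |x| / y := by
    rw [hw, norm_mul, norm_neg, Complex.norm_I, mul_one, Complex.norm_real, Real.norm_eq_abs, abs_div,
      abs_of_pos h]
  have hw2 : ‖w‖ ≤ 1 / 2 := by
    rw [hwn, div_le_iff₀ h]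
    linarith
  have hz : z = ((y : ℝ) : ℂ) * (I * (1 + w)) := by
    have h1 : z = (x : ℂ) + (y : ℂ) * I := by
      rw [hx, hy, Complex.re_add_im]
    rw [h1, hw]
    push_cast
    field_simp
    linear_combination (x : ℂ) * Complex.I_sq
  have hre : (1 + w).re = 1 := by
    rw [hw]
    simp
  have h1w : (1 + w) ≠ 0 := by
    intro h0
    rw [h0] at hre
    simp at hre
  have harg : |Complex.arg (1 + w)| < Real.pi / 2 :=
    Complex.abs_arg_lt_pi_div_two_iff.2 (Or.inl (by rw [hre]; norm_num))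
  obtain ⟨ha1, ha2⟩ := abs_lt.1 harg
  have hlog : Complex.log z = ((Real.log y : ℝ) : ℂ) + (((Real.pi / 2 : ℝ) : ℂ) * I + Complex.log (1 + w)) := by
    rw [hz, Complex.log_ofReal_mul h (mul_ne_zero I_ne_zero h1w)]
    congr 1
    rw [(Complex.log_mul_eq_add_log_iff I_ne_zero h1w).2, Complex.log_I]
    · push_cast
      rfl
    · rw [Complex.arg_I]
      constructor <;> linarith [Real.pi_pos]
  rw [hlog]
  have e : ((Real.log y : ℝ) : ℂ) + (((Real.pi / 2 : ℝ) : ℂ) * I + Complex.log (1 + w)) -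
      (((Real.log y : ℝ) : ℂ) + ((Real.pi / 2 : ℝ) : ℂ) * I) = Complex.log (1 + w) := by ring
  rw [e]
  refine (Complex.norm_log_one_add_half_le_self hw2).trans ?_
  rw [hwn]
  have : 0 ≤ |x| / y := by positivity
  have h3 : 2 * |x| / y = 2 * (|x| / y) := by ring
  rw [h3]
  linarith

private theorem log_down {z : ℂ} (h : z.im < 0) (h2 : 2 * |z.re| ≤ -z.im) :
    ‖Complex.log z - (((Real.log (-z.im) : ℝ) : ℂ) - ((Real.pi / 2 : ℝ) : ℂ) * I)‖ ≤ 2 * |z.re| / (-z.im) := by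
  have h1 := log_up (z := (starRingEnd ℂ) z) (by simpa using h) (by simpa using h2)
  rw [Complex.conj_im, Complex.conj_re] at h1
  have harg : ((starRingEnd ℂ) z).arg ≠ Real.pi := by
    intro h0
    have h3 := (Complex.arg_eq_pi_iff.1 h0).2
    rw [Complex.conj_im] at h3
    linarith
  have hl : Complex.log z = (starRingEnd ℂ) (Complex.log ((starRingEnd ℂ) z)) := by
    rw [← Complex.log_conj _ harg, Complex.conj_conj]
  have e : Complex.log z - (((Real.log (-z.im) : ℝ) : ℂ) - ((Real.pi / 2 : ℝ) : ℂ) * I) =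
      (starRingEnd ℂ) (Complex.log ((starRingEnd ℂ) z) - (((Real.log (-z.im) : ℝ) : ℂ) +
        ((Real.pi / 2 : ℝ) : ℂ) * I)) := by
    rw [hl, map_sub, map_add, map_mul, Complex.conj_I, Complex.conj_ofReal, Complex.conj_ofReal]
    ring
  rw [e, RCLike.norm_conj]
  exact h1

private theorem log_pair {s : ℂ} (A : ℝ) (hA : 0 ≤ A) (h1 : |s.re| ≤ A) (h2 : 2 * (A + 1) ≤ |s.im|)
    (h0 : s.im ≠ 0) :
    ‖Complex.log (s / 2) + Complex.log ((1 - s) / 2) - 2 * ((Real.log (|s.im| / 2) : ℝ) : ℂ)‖ ≤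
      4 * (A + 1) / |s.im| := by
  have hre : (s / 2).re = s.re / 2 := by simp
  have him : (s / 2).im = s.im / 2 := by simp
  have hre' : ((1 - s) / 2).re = (1 - s.re) / 2 := by simp
  have him' : ((1 - s) / 2).im = -(s.im / 2) := by simp; ring
  have ha : |s.re / 2| ≤ (A + 1) / 2 := by
    rw [abs_div, abs_of_pos (by norm_num : (0 : ℝ) < 2)]
    linarith
  have hb : |(1 - s.re) / 2| ≤ (A + 1) / 2 := by
    rw [abs_div, abs_of_pos (by norm_num : (0 : ℝ) < 2)]
    have := abs_sub (1 : ℝ) s.re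
    rw [abs_one] at this
    linarith
  have htp : 0 < |s.im| := abs_pos.2 h0
  have hq : ∀ u : ℝ, |u| ≤ (A + 1) / 2 → 2 * |u| / (|s.im| / 2) ≤ 2 * (A + 1) / |s.im| := by
    intro u hu
    rw [div_le_div_iff₀ (by positivity) htp]
    nlinarith
  rcases lt_or_gt_of_ne h0 with h | h
  · have hab : |s.im| = -s.im := abs_of_neg h
    have q1 := log_down (z := s / 2) (by rw [him]; linarith) (by rw [hre, him]; rw [hab] at h2; linarith)
    have q2 := log_up (z := (1 - s) / 2) (by rw [him']; linarith) (by rw [hre', him']; rw [hab] at h2; linarith)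
    rw [hre, him] at q1
    rw [hre', him'] at q2
    have r1 := hq _ ha
    have r2 := hq _ hb
    rw [hab] at r1 r2 ⊢
    have e1 : -(s.im / 2) = -s.im / 2 := by ring
    rw [e1] at q1 q2
    have e : Complex.log (s / 2) + Complex.log ((1 - s) / 2) - 2 * ((Real.log (-s.im / 2) : ℝ) : ℂ) =
        (Complex.log (s / 2) - (((Real.log (-s.im / 2) : ℝ) : ℂ) - ((Real.pi / 2 : ℝ) : ℂ) * I)) +
        (Complex.log ((1 - s) / 2) - (((Real.log (-s.im / 2) : ℝ) : ℂ) + ((Real.pi / 2 : ℝ) : ℂ) * I)) := by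
      ring
    rw [e]
    refine (norm_add_le _ _).trans ?_
    have e2 : 4 * (A + 1) / (-s.im) = 2 * (A + 1) / (-s.im) + 2 * (A + 1) / (-s.im) := by ring
    rw [e2]
    exact add_le_add (q1.trans r1) (q2.trans r2)
  · have hab : |s.im| = s.im := abs_of_pos h
    have q1 := log_up (z := s / 2) (by rw [him]; linarith) (by rw [hre, him]; rw [hab] at h2; linarith)
    have q2 := log_down (z := (1 - s) / 2) (by rw [him']; linarith) (by rw [hre', him']; rw [hab] at h2; linarith)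
    rw [hre, him] at q1
    rw [hre', him'] at q2
    have r1 := hq _ ha
    have r2 := hq _ hb
    rw [hab] at r1 r2 ⊢
    have e1 : - -(s.im / 2) = s.im / 2 := by ring
    rw [e1] at q2
    have e : Complex.log (s / 2) + Complex.log ((1 - s) / 2) - 2 * ((Real.log (s.im / 2) : ℝ) : ℂ) =
        (Complex.log (s / 2) - (((Real.log (s.im / 2) : ℝ) : ℂ) + ((Real.pi / 2 : ℝ) : ℂ) * I)) +
        (Complex.log ((1 - s) / 2) - (((Real.log (s.im / 2) : ℝ) : ℂ) - ((Real.pi / 2 : ℝ) : ℂ) * I)) := by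
      ring
    rw [e]
    refine (norm_add_le _ _).trans ?_
    have e2 : 4 * (A + 1) / s.im = 2 * (A + 1) / s.im + 2 * (A + 1) / s.im := by ring
    rw [e2]
    exact add_le_add (q1.trans r1) (q2.trans r2)

/-! ## the logarithmic derivative of `GG` -/

private theorem lam_eq {s : ℂ} (h : s.im ≠ 0) : logDeriv GG s = dR s + dR (1 - s) := by
  rw [logDeriv_apply, (gg_deriv h).deriv, mul_div_cancel_left₀ _ (gg_ne h)]

theorem lam_hasDeriv {s : ℂ} (h : s.im ≠ 0) : HasDerivAt GG (GG s * logDeriv GG s) s := by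
  rw [lam_eq h]
  exact gg_deriv h

theorem lam_bd (A : ℝ) : ∃ C T0 : ℝ, 0 < C ∧ 10 ≤ T0 ∧ ∀ s : ℂ, |s.re| ≤ A → T0 ≤ |s.im| →
    ‖logDeriv GG s - ((Real.log (|s.im| / (2 * Real.pi)) : ℝ) : ℂ)‖ ≤ C / |s.im| := by
  obtain ⟨C0, T1, hC0, hT1, H⟩ := dig_log (|A| + 1)
  refine ⟨2 * C0 + 2 * (|A| + 1), 2 * T1 + 4 * (|A| + 1), by positivity, by
    have := abs_nonneg A; linarith, ?_⟩
  intro s hs1 hs2
  have hA : 0 ≤ A := (abs_nonneg _).trans hs1
  rw [abs_of_nonneg hA] at hs2 H ⊢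
  have h0 : s.im ≠ 0 := by
    intro h0
    rw [h0, abs_zero] at hs2
    linarith
  have htp : 0 < |s.im| := abs_pos.2 h0
  have hre : (s / 2).re = s.re / 2 := by simp
  have him : (s / 2).im = s.im / 2 := by simp
  have hre' : ((1 - s) / 2).re = (1 - s.re) / 2 := by simp
  have him' : ((1 - s) / 2).im = -(s.im / 2) := by simp; ring
  have ha : |s.re / 2| ≤ A + 1 := by
    rw [abs_div, abs_of_pos (by norm_num : (0 : ℝ) < 2)]
    linarith
  have hb : |(1 - s.re) / 2| ≤ A + 1 := by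
    rw [abs_div, abs_of_pos (by norm_num : (0 : ℝ) < 2)]
    have := abs_sub (1 : ℝ) s.re
    rw [abs_one] at this
    linarith
  have q1 := H (s / 2) (by rw [hre]; exact ha) (by
    rw [him, abs_div, abs_of_pos (by norm_num : (0 : ℝ) < 2)]; linarith)
  have q2 := H ((1 - s) / 2) (by rw [hre']; exact hb) (by
    rw [him', abs_neg, abs_div, abs_of_pos (by norm_num : (0 : ℝ) < 2)]; linarith)
  rw [him, abs_div, abs_of_pos (by norm_num : (0 : ℝ) < 2)] at q1
  rw [him', abs_neg, abs_div, abs_of_pos (by norm_num : (0 : ℝ) < 2)] at q2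
  have q3 := log_pair A hA hs1 (by linarith) h0
  have hlog : Real.log (|s.im| / (2 * Real.pi)) = Real.log (|s.im| / 2) - Real.log Real.pi := by
    rw [← Real.log_div (by positivity) Real.pi_ne_zero]
    congr 1
    field_simp
  rw [lam_eq h0, hlog]
  have e : dR s + dR (1 - s) - ((Real.log (|s.im| / 2) - Real.log Real.pi : ℝ) : ℂ) =
      (digamma (s / 2) - Complex.log (s / 2)) / 2 + (digamma ((1 - s) / 2) - Complex.log ((1 - s) / 2)) / 2 +
      (Complex.log (s / 2) + Complex.log ((1 - s) / 2) - 2 * ((Real.log (|s.im| / 2) : ℝ) : ℂ)) / 2 := by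
    unfold dR
    push_cast
    ring
  rw [e]
  refine (norm_add_le _ _).trans (le_trans (add_le_add_left (norm_add_le _ _) _) ?_)
  rw [norm_div, norm_div, norm_div]
  simp only [Complex.norm_ofNat]
  have e3 : (2 * C0 + 2 * (A + 1)) / |s.im| = C0 / (|s.im| / 2) / 2 + C0 / (|s.im| / 2) / 2 +
      4 * (A + 1) / |s.im| / 2 := by
    field_simp
    ring
  rw [e3]
  linarith

end Pool.Agent.H73.WH
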